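import Mathlib

/-! # Irreducibility of `X ^ t - c` over `F(x)` when `c` has a zero or a pole of order prime to `t` -/

set_option autoImplicit false

namespace Pool.Agent.Helper491_Par.Weil

open Polynomial Finset

/-- the constant coefficient of a monic divisor of `X ^ t - c` -/
theorem coeff_zero_pow {K : Type*} [Field K] (t : ℕ) (ht : 0 < t) (c : K) (g : K[X])
    (hg : g.Monic) (hdvd : g ∣ X ^ t - C c) :
    (g.coeff 0) ^ t = (-1) ^ (g.natDegree * t) * c ^ g.natDegree := by
  let L := AlgebraicClosure K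
  apply (algebraMap K L).injective
  set G := g.map (algebraMap K L) with hG
  have hGm : G.Monic := hg.map _
  have hsp : G.Splits := IsAlgClosed.splits _
  have hdeg : G.natDegree = g.natDegree := natDegree_map _
  have h0 : algebraMap K L (g.coeff 0) = (-1) ^ g.natDegree * G.roots.prod := by
    rw [← hdeg, ← hsp.coeff_zero_eq_prod_roots_of_monic hGm, hG, coeff_map]
  have hroots : ∀ a ∈ G.roots, a ^ t = algebraMap K L c := by
    intro a ha
    have h1 : G.eval a = 0 := (mem_roots hGm.ne_zero).1 ha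
    have h2 : G ∣ (X ^ t - C (algebraMap K L c) : L[X]) := by
      have := Polynomial.map_dvd (algebraMap K L) hdvd
      simpa using this
    obtain ⟨w, hw⟩ := h2
    have h3 := congrArg (eval a) hw
    rw [eval_mul, h1, zero_mul] at h3
    simp only [eval_sub, eval_pow, eval_X, eval_C] at h3
    exact sub_eq_zero.1 h3
  have hcard : G.roots.card = g.natDegree := by
    rw [← hdeg]
    exact hsp.natDegree_eq_card_roots.symm
  have hprod : G.roots.prod ^ t = algebraMap K L c ^ g.natDegree := by
    have e : G.roots.prod ^ t = (G.roots.map (fun a => a ^ t)).prod := by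
      rw [Multiset.prod_map_pow, Multiset.map_id']
    rw [e, Multiset.map_congr rfl hroots, Multiset.map_const', Multiset.prod_replicate, hcard]
  rw [map_pow, h0, mul_pow, hprod, ← pow_mul, map_mul, map_pow, map_pow]
  simp

theorem rm_pow {F : Type*} [Field F] (f : F[X]) (a : F) (hf : f ≠ 0) (n : ℕ) :
    rootMultiplicity a (f ^ n) = n * rootMultiplicity a f := by
  induction n with
  | zero => rw [pow_zero, zero_mul, ← C_1, rootMultiplicity_C]
  | succ n ih =>
    rw [pow_succ, rootMultiplicity_mul (mul_ne_zero (pow_ne_zero _ hf) hf), ih]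
    ring

theorem irr {F : Type*} [Field F] {t : ℕ} (ht : 2 ≤ t) (f : F[X]) (hf : f ≠ 0) (e : F)
    (he : e ≠ 0) (hv : ∀ s : ℕ, (∀ v : F, t ∣ s * rootMultiplicity v f) → t ∣ s) :
    Irreducible (X ^ t - C (algebraMap F[X] (RatFunc F) (C e) / algebraMap F[X] (RatFunc F) f) :
      (RatFunc F)[X]) := by
  set φ : F[X] →+* RatFunc F := algebraMap F[X] (RatFunc F) with hφ
  have hinj : Function.Injective φ := RatFunc.algebraMap_injective F
  set c : RatFunc F := φ (C e) / φ f with hc
  have hφf : φ f ≠ 0 := by rw [map_ne_zero_iff _ hinj]; exact hf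
  have hmon : (X ^ t - C c : (RatFunc F)[X]).Monic := monic_X_pow_sub_C c (by omega)
  have hnd : (X ^ t - C c : (RatFunc F)[X]).natDegree = t := natDegree_X_pow_sub_C
  have hne1 : (X ^ t - C c : (RatFunc F)[X]) ≠ 1 := by
    intro h
    have := congrArg natDegree h
    rw [hnd, natDegree_one] at this
    omega
  rw [hmon.irreducible_iff_lt_natDegree_lt hne1]
  intro g hg hgd hdvd
  rw [mem_Ioc, hnd] at hgd
  set k := g.natDegree with hk
  have h1 := coeff_zero_pow t (by omega) c g hg hdvd
  rw [← hk] at h1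
  -- write the constant coefficient as a fraction
  obtain ⟨u, w, hw0, huw⟩ := IsFractionRing.div_surjective (A := F[X]) (g.coeff 0)
  have hw : w ≠ 0 := nonZeroDivisors.ne_zero hw0
  have hφw : φ w ≠ 0 := by rw [map_ne_zero_iff _ hinj]; exact hw
  rw [← huw, hc, div_pow, div_pow] at h1
  have h2 : φ (u ^ t * f ^ k) = φ ((-1) ^ (k * t) * C e ^ k * w ^ t) := by
    rw [map_mul, map_mul, map_mul, map_pow, map_pow, map_pow, map_pow, map_pow]
    have h3 : φ u ^ t / φ w ^ t = (-1) ^ (k * t) * (φ (C e) ^ k / φ f ^ k) := h1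
    rw [div_eq_iff (pow_ne_zero _ hφw)] at h3
    rw [h3, map_neg, map_one]
    field_simp
  have h3 : u ^ t * f ^ k = (-1) ^ (k * t) * C e ^ k * w ^ t := hinj h2
  have hCe : (C e : F[X]) ≠ 0 := C_ne_zero.2 he
  have hrhs : (-1 : F[X]) ^ (k * t) * C e ^ k * w ^ t ≠ 0 :=
    mul_ne_zero (mul_ne_zero (pow_ne_zero _ (neg_ne_zero.2 one_ne_zero)) (pow_ne_zero _ hCe))
      (pow_ne_zero _ hw)
  have hu : u ≠ 0 := by
    rintro rfl
    rw [← h3, zero_pow (by omega), zero_mul] at hrhs
    exact hrhs rfl
  have h7 : t ∣ k := hv k (fun v => by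
    have h4 := congrArg (rootMultiplicity v) h3
    rw [rootMultiplicity_mul (mul_ne_zero (pow_ne_zero _ hu) (pow_ne_zero _ hf)),
      rootMultiplicity_mul hrhs, rm_pow u v hu, rm_pow f v hf, rm_pow w v hw] at h4
    have h5 : rootMultiplicity v ((-1 : F[X]) ^ (k * t) * C e ^ k) = 0 := by
      have : (-1 : F[X]) ^ (k * t) * C e ^ k = C ((-1) ^ (k * t) * e ^ k) := by
        rw [C_mul, C_pow, C_pow, C_neg, C_1]
      rw [this, rootMultiplicity_C]
    rw [h5, zero_add] at h4
    have : k * rootMultiplicity v f = t * rootMultiplicity v w - t * rootMultiplicity v u := by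
      omega
    rw [this, ← Nat.mul_sub]
    exact Dvd.intro _ rfl)
  have h8 := Nat.le_of_dvd hgd.1 h7
  have h9 : t / 2 < t := Nat.div_lt_self (by omega) (by norm_num)
  omega

end Pool.Agent.Helper491_Par.Weil
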