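import Pool.Agent.Helper491_Par.Weil.Irr

/-!
# NV0: the linear independence step (resultants)
-/

set_option autoImplicit false

namespace Pool.Agent.Helper491_Par.Weil

open Polynomial Finset

/-- the greatest common divisor of `t` and of the multiplicities of all the roots of `f` is one -/
def Cop {F : Type*} [Field F] (t : ℕ) (f : F[X]) : Prop :=
  ∀ s : ℕ, (∀ v : F, t ∣ s * rootMultiplicity v f) → t ∣ s

namespace NV0h

/-- degree of a determinant, column by column -/
theorem natDegree_det_le' {R : Type*} [CommRing R] {n : Type*} [Fintype n] [DecidableEq n]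
    (M : Matrix n n R[X]) (c : n → ℕ) (h : ∀ i j, (M i j).natDegree ≤ c j) :
    M.det.natDegree ≤ ∑ j, c j := by
  rw [Matrix.det_apply]
  refine (natDegree_sum_le _ _).trans ?_
  rw [Finset.fold_max_le]
  refine ⟨Nat.zero_le _, fun σ _ => ?_⟩
  simp only [Function.comp_apply]
  have h1 : (∏ i, M (σ i) i).natDegree ≤ ∑ j, c j :=
    (natDegree_prod_le _ _).trans (Finset.sum_le_sum fun i _ => h _ _)
  rcases Int.units_eq_one_or (Equiv.Perm.sign σ) with hs | hs
  · rw [hs, one_smul]; exact h1
  · rw [hs, Units.neg_smul, one_smul, natDegree_neg]; exact h1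

theorem core {F : Type*} [Field F] [Fintype F] {t Q D q : ℕ} (ht : 2 ≤ t) (f : F[X])
    (hf0 : f.eval 0 ≠ 0) (hq : Fintype.card F = q) (hqt : q = t * Q + 1)
    (hpow : Cop t f) (k : Fin t → F[X])
    (hk : ∀ i, (k i).natDegree ≤ D) (hdeg : t * D + (t - 1) * f.natDegree < q)
    (hdvd : X ^ q ∣ ∑ i : Fin t, k i * f ^ ((i : ℕ) * Q)) : ∀ i, k i = 0 := by
  classical
  have ht0 : 0 < t := by omega
  have hfne : f ≠ 0 := by rintro rfl; simp at hf0
  obtain ⟨A, hA⟩ : ∃ A : F[X][X], A = ∑ i : Fin t, C (k i) * X ^ (i : ℕ) := ⟨_, rfl⟩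
  obtain ⟨B, hB⟩ : ∃ B : F[X][X], B = C f * X ^ t - C (C (f.eval 0)) := ⟨_, rfl⟩
  have hAcoeff : ∀ i : Fin t, A.coeff i = k i := by
    intro i
    rw [hA, finsetSum_coeff, Finset.sum_eq_single i]
    · simp
    · intro j _ hj
      rw [coeff_C_mul, coeff_X_pow, if_neg (fun h => hj (Fin.ext h.symm)), mul_zero]
    · intro h; exact absurd (Finset.mem_univ _) h
  have hAdeg : A.natDegree ≤ t - 1 := by
    rw [hA]
    refine natDegree_sum_le_of_forall_le _ _ (fun i _ => ?_)
    refine (natDegree_C_mul_X_pow_le _ _).trans ?_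
    have := i.2
    omega
  have hAcoeff' : ∀ n, (A.coeff n).natDegree ≤ D := by
    intro n
    by_cases hn : n < t
    · have := hAcoeff ⟨n, hn⟩
      rw [show A.coeff n = k ⟨n, hn⟩ from this]
      exact hk _
    · rw [coeff_eq_zero_of_natDegree_lt (by omega)]
      simp
  have hBdeg : B.natDegree ≤ t := by
    rw [hB]
    refine (natDegree_sub_le _ _).trans ?_
    rw [natDegree_C]
    exact max_le (natDegree_C_mul_X_pow_le _ _) (Nat.zero_le _)
  have hBcoeff : ∀ n, (B.coeff n).natDegree ≤ f.natDegree := by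
    intro n
    rw [hB, coeff_sub, coeff_C_mul, coeff_X_pow, coeff_C]
    split_ifs with h1 h2
    · omega
    · simp
    · simp
    · simp
  by_contra hne
  push Not at hne
  obtain ⟨i0, hi0⟩ := hne
  have hAne : A ≠ 0 := by
    intro h
    apply hi0
    rw [← hAcoeff i0, h, coeff_zero]
  -- the resultant
  obtain ⟨R, hR⟩ : ∃ R : F[X], R = resultant A B A.natDegree t := ⟨_, rfl⟩
  obtain ⟨P, S, _, _, hPS⟩ := exists_mul_add_mul_eq_C_resultant A B (m := A.natDegree) (n := t) le_rfl
    hBdeg (Or.inr ht0.ne')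
  rw [← hR] at hPS
  have hRdvd : X ^ q ∣ R := by
    have h1 := congrArg (eval (f ^ Q)) hPS
    rw [eval_C, eval_add, eval_mul, eval_mul] at h1
    rw [← h1]
    refine dvd_add (Dvd.dvd.mul_right ?_ _) (Dvd.dvd.mul_right ?_ _)
    · have h2 : eval (f ^ Q) A = ∑ i : Fin t, k i * f ^ ((i : ℕ) * Q) := by
        rw [hA, eval_finsetSum]
        apply Finset.sum_congr rfl
        intro i _
        rw [eval_mul, eval_C, eval_pow, eval_X, ← pow_mul, mul_comm Q]
      rw [h2]; exact hdvd
    · have h2 : eval (f ^ Q) B = f ^ q - C (f.eval 0) := by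
        rw [hB, eval_sub, eval_mul, eval_C, eval_pow, eval_X, eval_C, ← pow_mul, ← pow_succ', mul_comm Q,
          ← hqt]
      have h3 : f ^ q = expand F q f := by
        rw [← hq, FiniteField.expand_card]
      rw [h2, h3]
      have h4 : expand F q f - C (f.eval 0) = expand F q (f - C (f.eval 0)) := by
        rw [map_sub, expand_C]
      rw [h4]
      have h5 : X ∣ f - C (f.eval 0) := by
        rw [X_dvd_iff]
        simp [coeff_zero_eq_eval_zero]
      obtain ⟨w, hw⟩ := h5
      rw [hw, map_mul, expand_X]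
      exact Dvd.intro _ rfl
  have hRdeg : R.natDegree ≤ t * D + (t - 1) * f.natDegree := by
    have h1 : R.natDegree ≤ ∑ j : Fin (A.natDegree + t), Fin.addCases (motive := fun _ => ℕ)
        (fun _ : Fin A.natDegree => f.natDegree) (fun _ : Fin t => D) j := by
      rw [hR]
      unfold resultant
      apply natDegree_det_le'
      intro i j
      unfold sylvester
      rw [Matrix.of_apply]
      induction j using Fin.addCases with
      | left j =>
        rw [Fin.addCases_left, Fin.addCases_left]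
        split_ifs
        · exact hBcoeff _
        · simp
      | right j =>
        rw [Fin.addCases_right, Fin.addCases_right]
        split_ifs
        · exact hAcoeff' _
        · simp
    rw [Fin.sum_univ_add] at h1
    simp only [Fin.addCases_left, Fin.addCases_right, Finset.sum_const, Finset.card_univ,
      Fintype.card_fin, smul_eq_mul] at h1
    have h2 : A.natDegree * f.natDegree ≤ (t - 1) * f.natDegree := Nat.mul_le_mul_right _ hAdeg
    omega
  have hR0 : R = 0 := by
    by_contra h
    have h1 := natDegree_le_of_dvd hRdvd h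
    rw [natDegree_X_pow] at h1
    omega
  -- over the field of fractions
  have hinj : Function.Injective (algebraMap F[X] (RatFunc F)) := RatFunc.algebraMap_injective F
  have hAm : (A.map (algebraMap F[X] (RatFunc F))).natDegree = A.natDegree :=
    natDegree_map_eq_of_injective hinj A
  have hBlead : B.coeff t = f := by
    rw [hB, coeff_sub, coeff_C_mul, coeff_X_pow, if_pos rfl, mul_one, coeff_C, if_neg ht0.ne', sub_zero]
  have hBdeg' : B.natDegree = t := by
    apply le_antisymm hBdeg
    apply le_natDegree_of_ne_zero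
    rw [hBlead]; exact hfne
  have hBm : (B.map (algebraMap F[X] (RatFunc F))).natDegree = t := by
    rw [natDegree_map_eq_of_injective hinj B, hBdeg']
  have hres : resultant (A.map (algebraMap F[X] (RatFunc F))) (B.map (algebraMap F[X] (RatFunc F))) = 0 := by
    rw [hAm, hBm, resultant_map_map, ← hR, hR0, map_zero]
  rw [resultant_eq_zero_iff] at hres
  apply hres.2
  -- irreducibility
  obtain ⟨φ, hφ⟩ : ∃ φ : F[X] →+* RatFunc F, φ = algebraMap F[X] (RatFunc F) := ⟨_, rfl⟩
  have hφf : algebraMap F[X] (RatFunc F) f ≠ 0 := by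
    rw [map_ne_zero_iff _ hinj]; exact hfne
  obtain ⟨c, hc⟩ : ∃ c : RatFunc F, c = algebraMap F[X] (RatFunc F) (C (f.eval 0)) /
    algebraMap F[X] (RatFunc F) f := ⟨_, rfl⟩
  have hBmap : B.map (algebraMap F[X] (RatFunc F)) =
      C (algebraMap F[X] (RatFunc F) f) * (X ^ t - C c) := by
    rw [hB, Polynomial.map_sub, Polynomial.map_mul, Polynomial.map_pow, map_X, map_C, map_C, mul_sub,
      ← C_mul, hc, mul_div_cancel₀ _ hφf]
  have hirr : Irreducible (X ^ t - C c : (RatFunc F)[X]) := by
    rw [hc]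
    exact irr ht f hfne (f.eval 0) hf0 hpow
  rw [hBmap, isCoprime_comm]
  have hunit : IsUnit (C (algebraMap F[X] (RatFunc F) f)) := isUnit_C.2 (isUnit_iff_ne_zero.2 hφf)
  rw [isCoprime_mul_unit_left_left hunit]
  rw [hirr.coprime_iff_not_dvd]
  intro h
  have h1 : A.map (algebraMap F[X] (RatFunc F)) ≠ 0 := by
    intro h2
    apply hAne
    exact Polynomial.map_injective _ hinj (by rw [h2, Polynomial.map_zero])
  have h2 := natDegree_le_of_dvd h h1
  rw [hAm, natDegree_X_pow_sub_C] at h2
  omega

end NV0h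

theorem nv0 (F : Type) [Field F] [Fintype F] (t : ℕ) (ht : 2 ≤ t) (f : F[X])
    (hf0 : f.eval 0 ≠ 0) (hpow : Cop t f) (D Q : ℕ) (hQ : t * Q + 1 = Fintype.card F)
    (hdeg : t * (D + f.natDegree) < Fintype.card F) (k : Fin t → F[X])
    (hk : ∀ i, (k i).natDegree ≤ D)
    (hdvd : (X : F[X]) ^ Fintype.card F ∣ ∑ i : Fin t, k i * f ^ ((i : ℕ) * Q)) :
    ∀ i, k i = 0 := by
  refine NV0h.core ht f hf0 rfl hQ.symm hpow k hk ?_ hdvd
  have h1 : (t - 1) * f.natDegree ≤ t * f.natDegree := Nat.mul_le_mul_right _ (by omega)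
  have h2 : t * (D + f.natDegree) = t * D + t * f.natDegree := by ring
  omega

end Pool.Agent.Helper491_Par.Weil
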